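import Mathlib

/-!
# `lcm(1, ..., n)` over the denominator of `H_n` is never divisible by `81`

The problem MP_2b19eb_nt asks whether every odd positive integer is a value of
`a(n) = lcm(1, ..., n) / denominator (H_n)`. The answer is no: `a(n)` is never divisible by `81`.

Proof. `H_n = U + H_m / 3` with `m = ⌊n / 3⌋` and `U` a `3`-adic integer. If `|H_m|_3 ≥ 1` then
`|H_n|_3 = 3 |H_m|_3`. A computation gives `|H_n|_3 ≥ 1` for `1 ≤ n ≤ 68`, `n ≠ 2, 7, 22`, so
for `n ≥ 69` one has `|H_n|_3 = 3 |H_m|_3 ≥ 3`, and by induction `|H_n|_3 ≥ 3 ^ (k - 3)` if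
`3 ^ k ≤ n < 3 ^ (k + 1)`: the denominator of `H_n` is divisible by `3 ^ (k - 3)`.
-/

set_option autoImplicit false

namespace Pool.Agent.Results.MP_2b19eb_nt.EightyOne

open Finset

/-- `lcm {1, ..., n}` -/
def L (n : ℕ) : ℕ := (Icc 1 n).lcm id

/-- the denominator of `H_n = 1 + 1 / 2 + ... + 1 / n` in lowest terms -/
def q (n : ℕ) : ℕ := (∑ k ∈ Icc 1 n, (1 : ℚ) / k).den

/-- `a n = L n / q n` -/
def a (n : ℕ) : ℕ := L n / q n

/-- the harmonic number -/
def H (n : ℕ) : ℚ := ∑ k ∈ Icc 1 n, (1 : ℚ) / k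

/-- the part of `H n` prime to `3` -/
def U (n : ℕ) : ℚ := ∑ k ∈ (Icc 1 n).filter (fun k => ¬ 3 ∣ k), (1 : ℚ) / k

theorem H_succ (n : ℕ) : H (n + 1) = H n + 1 / ((n : ℚ) + 1) := by
  unfold H
  rw [Finset.sum_Icc_succ_top (by omega)]
  push_cast
  rfl

theorem split (n : ℕ) : H n = U n + H (n / 3) / 3 := by
  unfold H U
  rw [← Finset.sum_filter_add_sum_filter_not (Icc 1 n) (fun k => ¬ 3 ∣ k)]
  congr 1
  rw [Finset.sum_div]
  symm
  refine Finset.sum_bij (fun k _ => 3 * k) ?_ ?_ ?_ ?_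
  · intro k hk
    simp only [mem_Icc] at hk
    simp only [mem_filter, mem_Icc, not_not]
    refine ⟨⟨by omega, by omega⟩, dvd_mul_right 3 k⟩
  · intro x _ y _ h
    simpa using h
  · intro b hb
    simp only [mem_filter, mem_Icc, not_not] at hb
    obtain ⟨⟨h1, h2⟩, c, hc⟩ := hb
    refine ⟨c, ?_, hc.symm⟩
    simp only [mem_Icc]
    constructor <;> omega
  · intro k hk
    simp only [mem_Icc] at hk
    have : (k : ℚ) ≠ 0 := by exact_mod_cast (by omega : k ≠ 0)
    push_cast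
    field_simp

instance : Fact (Nat.Prime 3) := ⟨Nat.prime_three⟩

theorem U_le (n : ℕ) : padicNorm 3 (U n) ≤ 1 := by
  unfold U
  refine padicNorm.sum_le' ?_ zero_le_one
  intro k hk
  simp only [mem_filter, mem_Icc] at hk
  have h1 : padicNorm 3 ((k : ℕ) : ℚ) = 1 := (padicNorm.nat_eq_one_iff (p := 3) k).2 hk.2
  rw [padicNorm.div, h1, padicNorm.one]
  norm_num

theorem step (n : ℕ) (h : 1 ≤ padicNorm 3 (H (n / 3))) :
    padicNorm 3 (H n) = 3 * padicNorm 3 (H (n / 3)) := by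
  have h3 : padicNorm 3 (H (n / 3) / 3) = 3 * padicNorm 3 (H (n / 3)) := by
    rw [padicNorm.div]
    have : padicNorm 3 (3 : ℚ) = 3⁻¹ := by
      have := padicNorm.padicNorm_p (p := 3) (by norm_num)
      simpa using this
    rw [this]
    field_simp
  have hU := U_le n
  rw [split n, padicNorm.add_eq_max_of_ne, h3]
  · apply max_eq_right
    linarith
  · rw [h3]
    intro hh
    rw [hh] at hU
    linarith

/-- the numerator computation: `(num, den)` not reduced -/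
def nd : ℕ → ℕ × ℕ
  | 0 => (0, 1)
  | n + 1 => ((nd n).1 * (n + 1) + (nd n).2, (nd n).2 * (n + 1))

theorem nd_pos (n : ℕ) : 0 < (nd n).2 := by
  induction n with
  | zero => simp [nd]
  | succ n ih => simp only [nd]; positivity

theorem nd_eq (n : ℕ) : H n * ((nd n).2 : ℚ) = ((nd n).1 : ℚ) := by
  induction n with
  | zero => simp [nd, H]
  | succ n ih =>
    rw [H_succ]
    simp only [nd]
    push_cast
    have : (n : ℚ) + 1 ≠ 0 := by positivity
    field_simp
    linear_combination ((n : ℚ) + 1) * ih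

theorem small_check : ∀ n ∈ Icc 1 68, n ≠ 2 → n ≠ 7 → n ≠ 22 →
    ∃ e ∈ range 40, 3 ^ e ∣ (nd n).2 ∧ 3 ^ e ∣ (nd n).1 ∧ ¬ 3 ∣ (nd n).1 / 3 ^ e := by
  decide +kernel

theorem norm_pow (e : ℕ) : padicNorm 3 ((3 : ℚ) ^ e) = ((3 : ℚ) ^ e)⁻¹ := by
  have h : padicNorm 3 (3 : ℚ) = 3⁻¹ := by
    have := padicNorm.padicNorm_p (p := 3) (by norm_num)
    simpa using this
  induction e with
  | zero => simp
  | succ e ih => rw [pow_succ, padicNorm.mul, ih, h, mul_inv]

theorem norm_nat_le (x e : ℕ) (h : 3 ^ e ∣ x) : padicNorm 3 (x : ℚ) ≤ ((3 : ℚ) ^ e)⁻¹ := by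
  obtain ⟨c, rfl⟩ := h
  push_cast
  rw [padicNorm.mul, norm_pow]
  have : padicNorm 3 (c : ℚ) ≤ 1 := by exact_mod_cast padicNorm.of_nat (p := 3) c
  have h3 : (0 : ℚ) < ((3 : ℚ) ^ e)⁻¹ := by positivity
  nlinarith

theorem norm_nat_eq (x e : ℕ) (h : 3 ^ e ∣ x) (h' : ¬ 3 ∣ x / 3 ^ e) :
    padicNorm 3 (x : ℚ) = ((3 : ℚ) ^ e)⁻¹ := by
  obtain ⟨c, rfl⟩ := h
  rw [Nat.mul_div_cancel_left _ (by positivity)] at h'
  push_cast
  rw [padicNorm.mul, norm_pow, (padicNorm.nat_eq_one_iff (p := 3) c).2 h', mul_one]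

theorem small (n : ℕ) (h1 : 1 ≤ n) (h2 : n ≤ 68) (ha : n ≠ 2) (hb : n ≠ 7) (hc : n ≠ 22) :
    1 ≤ padicNorm 3 (H n) := by
  obtain ⟨e, -, he1, he2, he3⟩ := small_check n (by simp [h1, h2]) ha hb hc
  have hd : padicNorm 3 (H n) * padicNorm 3 ((nd n).2 : ℚ) = padicNorm 3 ((nd n).1 : ℚ) := by
    rw [← padicNorm.mul, nd_eq]
  have e1 := norm_nat_le _ _ he1
  have e2 := norm_nat_eq _ _ he2 he3
  have h3 : (0 : ℚ) < ((3 : ℚ) ^ e)⁻¹ := by positivity
  have h0 := padicNorm.nonneg (p := 3) (H n)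
  by_contra hlt
  push Not at hlt
  nlinarith

/-- the norms grow like the powers of `3` -/
theorem grow (k : ℕ) : ∀ n : ℕ, 3 ^ k ≤ n → n < 3 ^ (k + 1) →
    (n ≤ 68 ∨ (3 : ℚ) ^ k ≤ 27 * padicNorm 3 (H n) ∧ 1 ≤ padicNorm 3 (H n)) := by
  induction k with
  | zero => intro n h1 h2; left; omega
  | succ k ih =>
    intro n h1 h2
    by_cases hn : n ≤ 68
    · exact Or.inl hn
    right
    have a1 : 3 ^ k ≤ n / 3 := by
      rw [Nat.le_div_iff_mul_le (by norm_num)]
      rwa [← pow_succ]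
    have a2 : n / 3 < 3 ^ (k + 1) := by
      rw [Nat.div_lt_iff_lt_mul (by norm_num)]
      rwa [← pow_succ]
    have h23 : 23 ≤ n / 3 := by omega
    have key : 1 ≤ padicNorm 3 (H (n / 3)) ∧ (3 : ℚ) ^ k ≤ 27 * padicNorm 3 (H (n / 3)) := by
      rcases ih (n / 3) a1 a2 with h | h
      · have hs := small (n / 3) (by omega) h (by omega) (by omega) (by omega)
        refine ⟨hs, ?_⟩
        have hk : k ≤ 3 := by
          by_contra hk
          push Not at hk
          have : 3 ^ 4 ≤ 3 ^ k := Nat.pow_le_pow_right (by norm_num) hk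
          norm_num at this
          omega
        have : (3 : ℚ) ^ k ≤ 3 ^ 3 := pow_le_pow_right₀ (by norm_num) hk
        linarith
      · exact ⟨h.2, h.1⟩
    rw [step n key.1, pow_succ]
    constructor <;> linarith [key.1, key.2]

/-- the denominator -/
theorem pow_dvd_q (k n : ℕ) (h1 : 3 ^ (k + 3) ≤ n) (h2 : n < 3 ^ (k + 4)) : 3 ^ k ∣ q n := by
  have hN : (3 : ℚ) ^ k ≤ padicNorm 3 (H n) := by
    rcases grow (k + 3) n h1 h2 with h | h
    · have hk : k = 0 := by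
        by_contra hk
        have : 3 ^ 4 ≤ 3 ^ (k + 3) := Nat.pow_le_pow_right (by norm_num) (by omega)
        norm_num at this
        omega
      subst hk
      have := small n (by norm_num at h1; omega) h (by norm_num at h1; omega)
        (by norm_num at h1; omega) (by norm_num at h1; omega)
      simpa using this
    · have := h.1
      rw [pow_add] at this
      norm_num at this
      linarith
  have hq : H n * ((q n : ℕ) : ℚ) = ((H n).num : ℚ) := by
    have : (q n) = (H n).den := rfl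
    rw [this]
    exact Rat.mul_den_eq_num (H n)
  have h3 : padicNorm 3 (H n) * padicNorm 3 ((q n : ℕ) : ℚ) ≤ 1 := by
    rw [← padicNorm.mul, hq]
    exact padicNorm.of_int _
  have h4 : padicNorm 3 (((q n : ℕ) : ℤ) : ℚ) ≤ (3 : ℚ) ^ (-(k : ℤ)) := by
    rw [zpow_neg, zpow_natCast, Int.cast_natCast]
    have hp : (0 : ℚ) < (3 : ℚ) ^ k := by positivity
    have h0 := padicNorm.nonneg (p := 3) ((q n : ℕ) : ℚ)
    rw [← one_div, le_div_iff₀ hp]
    nlinarith
  have := (padicNorm.dvd_iff_norm_le (p := 3) (n := k) (z := ((q n : ℕ) : ℤ))).2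
    (by exact_mod_cast h4)
  exact_mod_cast this

/-- the numerator `L n` -/
theorem not_pow_dvd_L (k n : ℕ) (h2 : n < 3 ^ (k + 1)) : ¬ 3 ^ (k + 1) ∣ L n := by
  set M : ℕ := ∏ i ∈ Icc 1 n, i / 3 ^ (padicValNat 3 i) with hM
  have hcop : ¬ 3 ∣ M := by
    intro h
    obtain ⟨i, hi, h⟩ := (Nat.prime_three.prime.dvd_finsetProd_iff _).1 h
    simp only [mem_Icc] at hi
    have : 3 ^ (padicValNat 3 i + 1) ∣ i := by
      obtain ⟨c, hc⟩ := h
      have h' : 3 ^ padicValNat 3 i ∣ i := pow_padicValNat_dvd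
      refine ⟨c, ?_⟩
      calc i = 3 ^ padicValNat 3 i * (i / 3 ^ padicValNat 3 i) := (Nat.mul_div_cancel' h').symm
        _ = _ := by rw [hc, pow_succ]; ring
    exact pow_succ_padicValNat_not_dvd (p := 3) (by omega) this
  have hdvd : L n ∣ 3 ^ k * M := by
    unfold L
    refine Finset.lcm_dvd ?_
    intro i hi
    have hi' := hi
    simp only [mem_Icc] at hi'
    have h' : 3 ^ padicValNat 3 i ∣ i := pow_padicValNat_dvd
    have hle : padicValNat 3 i ≤ k := by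
      by_contra hlt
      push Not at hlt
      have : 3 ^ (k + 1) ≤ i := (Nat.pow_le_pow_right (by norm_num) hlt).trans
        (Nat.le_of_dvd (by omega) h')
      omega
    have e : i = 3 ^ padicValNat 3 i * (i / 3 ^ padicValNat 3 i) := (Nat.mul_div_cancel' h').symm
    show i ∣ _
    rw [e]
    exact mul_dvd_mul (pow_dvd_pow 3 hle) (Finset.dvd_prod_of_mem (fun i => i / 3 ^ (padicValNat 3 i)) hi)
  intro h
  have h' := h.trans hdvd
  rw [pow_succ] at h'
  exact hcop ((Nat.mul_dvd_mul_iff_left (by positivity)).1 h')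

theorem q_dvd_L (n : ℕ) : q n ∣ L n := by
  obtain ⟨S, hS⟩ : ∃ S : ℕ, S = ∑ k ∈ Icc 1 n, L n / k := ⟨_, rfl⟩
  have h : H n * (L n : ℚ) = ((S : ℕ) : ℚ) := by
    rw [hS]
    unfold H
    rw [Finset.sum_mul]
    push_cast
    refine Finset.sum_congr rfl ?_
    intro k hk
    have hd : k ∣ L n := Finset.dvd_lcm (f := id) hk
    simp only [mem_Icc] at hk
    have : (k : ℚ) ≠ 0 := by exact_mod_cast (by omega : k ≠ 0)
    rw [Nat.cast_div hd this]
    field_simp
  have h2 : ((H n).num : ℚ) * (L n : ℚ) = ((S : ℕ) : ℚ) * ((q n : ℕ) : ℚ) := by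
    rw [← h]
    have : ((q n : ℕ) : ℚ) = ((H n).den : ℚ) := rfl
    rw [this]
    have := Rat.mul_den_eq_num (H n)
    linear_combination -(L n : ℚ) * this
  have h3 : (H n).num * (L n : ℤ) = ((S : ℕ) : ℤ) * ((q n : ℕ) : ℤ) := by
    exact_mod_cast h2
  have h4 : ((q n : ℕ) : ℤ) ∣ (H n).num * (L n : ℤ) := ⟨_, by rw [h3]; ring⟩
  have hc : IsCoprime ((q n : ℕ) : ℤ) (H n).num := by
    have := (H n).reduced
    rw [Int.isCoprime_iff_nat_coprime]
    simp only [Int.natAbs_natCast]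
    exact this.symm
  exact_mod_cast hc.dvd_of_dvd_mul_left h4

theorem main (n : ℕ) (hn : 1 ≤ n) : ¬ 81 ∣ a n := by
  intro h
  have hL : L n = q n * a n := (Nat.mul_div_cancel' (q_dvd_L n)).symm
  obtain ⟨c, hc⟩ := h
  obtain ⟨k, h1, h2⟩ : ∃ k, 3 ^ k ≤ n ∧ n < 3 ^ (k + 1) :=
    ⟨Nat.log 3 n, Nat.pow_log_le_self 3 (by omega), Nat.lt_pow_succ_log_self (by norm_num) n⟩
  apply not_pow_dvd_L k n h2
  rw [hL, hc]
  rcases le_or_gt 3 k with hk3 | hk3
  · obtain ⟨j, rfl⟩ : ∃ j, k = j + 3 := ⟨k - 3, by omega⟩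
    obtain ⟨d, hd⟩ := pow_dvd_q j n h1 h2
    rw [hd]
    refine ⟨d * c, ?_⟩
    rw [show j + 3 + 1 = j + 4 from rfl, pow_add]
    ring
  · have : 3 ^ (k + 1) ∣ 3 ^ 4 := pow_dvd_pow 3 (by omega)
    exact (this.trans (by norm_num)).trans ((dvd_mul_right 81 c).trans (dvd_mul_left _ _))

/-- For every `n ≥ 1` the number `a n = lcm (1, ..., n) / denominator (H n)` (an exact quotient) is
not divisible by `81`. In particular the odd number `81` is not of the form `a n`, so not every odd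
positive integer is a value. -/
theorem result :
    (∀ n : ℕ, 1 ≤ n → q n ∣ L n ∧ ¬ 81 ∣ a n) ∧
    ¬ (∀ m : ℕ, Odd m → ∃ n : ℕ, 1 ≤ n ∧ a n = m) := by
  refine ⟨fun n hn => ⟨q_dvd_L n, main n hn⟩, ?_⟩
  intro h
  obtain ⟨n, hn, h⟩ := h 81 (by decide)
  exact main n hn (by rw [h])

end Pool.Agent.Results.MP_2b19eb_nt.EightyOne
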